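import Mathlib
import Pool.Agent.H1.Mult

set_option autoImplicit false

namespace Pool.Agent.Results.MP_dccd56_co.Diverge

open Filter Pool.Agent.H1.Mult

theorem result :
    Tendsto (fun n : ℕ => (C n : ℝ) / ((n : ℝ) ^ 2 * Real.log n)) atTop atTop ∧
    Tendsto (fun n : ℕ => (D n : ℝ) / ((n : ℝ) ^ (3 / 2 : ℝ) * √(Real.log n))) atTop atTop := by
  constructor
  · refine tendsto_atTop_mono' _ ?_ tendsto_natCast_atTop_atTop
    filter_upwards [D_superpoly 4, eventually_ge_atTop 2] with n h1 h2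
    have h3 : (2 : ℝ) ≤ n := by exact_mod_cast h2
    have h4 : (n : ℝ) ^ 4 ≤ C n := by exact_mod_cast h1.trans (D_le_C n)
    have h5 : 0 < Real.log n := Real.log_pos (by linarith)
    have h6 : Real.log n ≤ n := (Real.log_le_sub_one_of_pos (by linarith)).trans (by linarith)
    rw [le_div_iff₀ (by positivity)]
    calc (n : ℝ) * ((n : ℝ) ^ 2 * Real.log n) ≤ (n : ℝ) * ((n : ℝ) ^ 2 * n) := by gcongr
      _ = (n : ℝ) ^ 4 := by ring
      _ ≤ _ := h4
  · refine tendsto_atTop_mono' _ ?_ tendsto_natCast_atTop_atTop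
    filter_upwards [D_superpoly 4, eventually_ge_atTop 2] with n h1 h2
    have h3 : (2 : ℝ) ≤ n := by exact_mod_cast h2
    have h4 : (n : ℝ) ^ 4 ≤ D n := by exact_mod_cast h1
    have h5 : 0 < Real.log n := Real.log_pos (by linarith)
    have h6 : Real.log n ≤ n := (Real.log_le_sub_one_of_pos (by linarith)).trans (by linarith)
    have h7 : √(Real.log n) ≤ n := by
      rw [Real.sqrt_le_left (by linarith)]; nlinarith
    have h8 : (n : ℝ) ^ (3 / 2 : ℝ) ≤ (n : ℝ) ^ 2 := by
      rw [← Real.rpow_natCast]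
      exact Real.rpow_le_rpow_of_exponent_le (by linarith) (by norm_num)
    have h9 : 0 < √(Real.log n) := Real.sqrt_pos.2 h5
    rw [le_div_iff₀ (by positivity)]
    calc (n : ℝ) * ((n : ℝ) ^ (3 / 2 : ℝ) * √(Real.log n)) ≤ (n : ℝ) * ((n : ℝ) ^ 2 * n) := by gcongr
      _ = (n : ℝ) ^ 4 := by ring
      _ ≤ _ := h4

end Pool.Agent.Results.MP_dccd56_co.Diverge
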